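import Pool.Agent.Helper71.FX.St

/-!
# Project FX, module LA
-/

open MeasureTheory Filter Topology
open scoped FourierTransform RealInnerProductSpace Matrix ComplexConjugate ENNReal

noncomputable section

namespace Pool.Agent.Helper54.FX

open Wav Pool.Agent.Helper71.FX

theorem la_inner_ek {n : ℕ} (x : E n) (a : Fin n) : ⟪ek a, x⟫ = x.ofLp a := by
  unfold ek
  rw [EuclideanSpace.inner_single_left]
  simp

theorem la_inner_sum {n : ℕ} (w y : E n) : ⟪w, y⟫ = ∑ a, w.ofLp a * y.ofLp a := by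
  rw [PiLp.inner_apply]
  refine Finset.sum_congr rfl fun a _ => ?_
  simp [mul_comm]

/-- coordinates of `A^i x - k` -/
theorem la_coord {n : ℕ} {A : Matrix (Fin n) (Fin n) ℝ} (hA : A.det ≠ 0) (i : ℤ) (k : Fin n → ℤ)
    (x : E n) (a : Fin n) : (act (A ^ i) x - ivec k).ofLp a =
      ⟪act (A ^ i)ᵀ (ek a), x - act (A ^ (-i)) (ivec k)⟫ := by
  have hu : IsUnit A.det := isUnit_iff_ne_zero.2 hA
  rw [inner_act, Matrix.transpose_transpose, act_sub, ← act_mul, ← Matrix.zpow_add hu,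
    add_neg_cancel, zpow_zero, act_one, la_inner_ek]

theorem la_ax_int {n L : ℕ} {N : ℝ} {A : Matrix (Fin n) (Fin n) ℝ} {ψ : Fin L → E n → ℂ}
    (hLX : StLX) (hG : Good N A ψ) (p q : Ix n L) (w c : E n) :
    Integrable (fun x => conj (((⟪w, x - c⟫ : ℝ) : ℂ) * aff A ψ p x) * aff A ψ q x) := by
  have h1 := hLX n L N A ψ hG p w c
  have h2 : MemLp (aff A ψ q) 2 (volume : Measure (E n)) :=
    affine_memLp (expansive_det hG.exp) (hG.loc q.1).memLp _ _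
  have h1' : MemLp (fun x => conj (((⟪w, x - c⟫ : ℝ) : ℂ) * aff A ψ p x)) 2
      (volume : Measure (E n)) := h1.star
  exact h1'.integrable_mul h2

theorem la_ax {n L : ℕ} {N : ℝ} {A : Matrix (Fin n) (Fin n) ℝ} {ψ : Fin L → E n → ℂ}
    (hLX : StLX) (hG : Good N A ψ) (p q : Ix n L) (w : E n) :
    ax A ψ p q w = ∑ a, (((act (A ^ (-p.2.1))ᵀ w).ofLp a : ℝ) : ℂ) * axd A ψ p q a := by
  have hA : A.det ≠ 0 := expansive_det hG.exp
  have hu : IsUnit A.det := isUnit_iff_ne_zero.2 hA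
  have hint : ∀ a : Fin n, Integrable (fun x => (((act (A ^ (-p.2.1))ᵀ w).ofLp a : ℝ) : ℂ) *
      (conj ((((act (A ^ p.2.1) x - ivec p.2.2).ofLp a : ℝ) : ℂ) * aff A ψ p x) *
        aff A ψ q x)) := by
    intro a
    have h := la_ax_int hLX hG p q (act (A ^ p.2.1)ᵀ (ek a)) (act (A ^ (-p.2.1)) (ivec p.2.2))
    simp only [← la_coord hA] at h
    exact h.const_mul _
  unfold ax axd
  simp only [← integral_const_mul]
  rw [← integral_finsetSum _ (fun a _ => hint a)]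
  congr 1
  ext x
  have hin : ⟪w, x - ctr A p⟫ =
      ∑ a, (act (A ^ (-p.2.1))ᵀ w).ofLp a * (act (A ^ p.2.1) x - ivec p.2.2).ofLp a := by
    rw [← la_inner_sum]
    have e : x - ctr A p = act (A ^ (-p.2.1)) (act (A ^ p.2.1) x - ivec p.2.2) := by
      rw [act_sub, ← act_mul, ← Matrix.zpow_add hu, neg_add_cancel, zpow_zero, act_one]
      rfl
    rw [e, real_inner_comm, inner_act, real_inner_comm]
  rw [hin]
  push_cast
  simp only [map_mul, map_sum, Complex.conj_ofReal, Finset.sum_mul]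
  refine Finset.sum_congr rfl fun a _ => ?_
  ring

theorem la_gy {n L : ℕ} {N : ℝ} {A : Matrix (Fin n) (Fin n) ℝ} {ψ : Fin L → E n → ℂ}
    (hLF : StLF) (hG : Good N A ψ) (p q : Ix n L) (w : E n) :
    gy A ψ p q w = ∑ b, (((act (Aᵀ ^ p.2.1)ᵀ w).ofLp b : ℝ) : ℂ) * gyd A ψ p q b := by
  have hA : A.det ≠ 0 := expansive_det hG.exp
  have hAT : Aᵀ.det ≠ 0 := by rwa [Matrix.det_transpose]
  have hu : IsUnit Aᵀ.det := isUnit_iff_ne_zero.2 hAT
  obtain ⟨h1, h2⟩ := hLF n L N A ψ hG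
  have hq : MemLp (fun ξ => conj (fa A ψ q ξ)) 2 (volume : Measure (E n)) := (h2 q).star
  have hint : ∀ b : Fin n, Integrable (fun ξ => (((act (Aᵀ ^ p.2.1)ᵀ w).ofLp b : ℝ) : ℂ) *
      (conj (fa A ψ q ξ) * ((((act (Aᵀ ^ (-p.2.1)) ξ).ofLp b : ℝ) : ℂ) * fa A ψ p ξ))) := by
    intro b
    have h := h1 p (act (Aᵀ ^ (-p.2.1))ᵀ (ek b))
    have e : ∀ ξ : E n, ⟪act (Aᵀ ^ (-p.2.1))ᵀ (ek b), ξ⟫ = (act (Aᵀ ^ (-p.2.1)) ξ).ofLp b := by
      intro ξ
      rw [inner_act, Matrix.transpose_transpose, la_inner_ek]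
    simp only [e] at h
    exact (hq.integrable_mul h).const_mul _
  unfold gy gyd
  simp only [← integral_const_mul]
  rw [← integral_finsetSum _ (fun b _ => hint b)]
  congr 1
  ext ξ
  have hin : ⟪w, ξ⟫ =
      ∑ b, (act (Aᵀ ^ p.2.1)ᵀ w).ofLp b * (act (Aᵀ ^ (-p.2.1)) ξ).ofLp b := by
    rw [← la_inner_sum, inner_act, Matrix.transpose_transpose, ← act_mul, ← Matrix.zpow_add hu,
      add_neg_cancel, zpow_zero, act_one]
  rw [hin]
  push_cast
  simp only [Finset.sum_mul, Finset.mul_sum]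
  refine Finset.sum_congr rfl fun a _ => ?_
  ring

theorem la_act_ek {n : ℕ} (M : Matrix (Fin n) (Fin n) ℝ) (k a : Fin n) :
    (act M (ek k)).ofLp a = M a k := by
  unfold act ek
  simp [EuclideanSpace.single, Matrix.mulVec_single]

theorem pLA (hLX : StLX) (hLF : StLF) : StLA := by
  intro n L N A S ψ hG p q
  have hA : A.det ≠ 0 := expansive_det hG.exp
  have hAT : Aᵀ.det ≠ 0 := by rwa [Matrix.det_transpose]
  have hu : IsUnit A.det := isUnit_iff_ne_zero.2 hA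
  have huT : IsUnit Aᵀ.det := isUnit_iff_ne_zero.2 hAT
  set i := p.2.1 with hi
  unfold tt
  simp only [la_ax hLX hG, la_gy hLF hG, ← hi]
  have hmat : ∀ a b : Fin n, ∑ k, (act (A ^ (-i))ᵀ (ek k)).ofLp a *
      (act (Aᵀ ^ i)ᵀ (act (Sj A S i)ᵀ (ek k))).ofLp b = |A.det| ^ (-i) * S a b := by
    intro a b
    simp only [← act_mul, la_act_ek]
    have h1 : ∑ k, ((A ^ (-i))ᵀ a k) * (((Aᵀ ^ i)ᵀ * (Sj A S i)ᵀ) b k) =
        ((A ^ (-i))ᵀ * ((Sj A S i) * (Aᵀ ^ i))) a b := by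
      rw [Matrix.mul_apply]
      refine Finset.sum_congr rfl fun k _ => ?_
      rw [← Matrix.transpose_mul, Matrix.transpose_apply (Sj A S i * Aᵀ ^ i)]
    rw [h1]
    have h2 : (A ^ (-i))ᵀ = Aᵀ ^ (-i) := Matrix.transpose_zpow A (-i)
    rw [h2]
    unfold Sj
    rw [Matrix.smul_mul, Matrix.mul_smul]
    have h3 : Aᵀ ^ (-i) * (Aᵀ ^ i * S * Aᵀ ^ (-i) * Aᵀ ^ i) = S := by
      rw [Matrix.mul_assoc (Aᵀ ^ i * S), ← Matrix.zpow_add huT (-i) i, neg_add_cancel, zpow_zero,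
        Matrix.mul_one, ← Matrix.mul_assoc, ← Matrix.zpow_add huT, neg_add_cancel, zpow_zero,
        Matrix.one_mul]
    rw [h3, Matrix.smul_apply, smul_eq_mul]
  have hL : ∀ k, (∑ a, (((act (A ^ (-i))ᵀ (ek k)).ofLp a : ℝ) : ℂ) * axd A ψ p q a) *
      (∑ b, (((act (Aᵀ ^ i)ᵀ (act (Sj A S i)ᵀ (ek k))).ofLp b : ℝ) : ℂ) * gyd A ψ p q b) =
      ∑ a, ∑ b, (((act (A ^ (-i))ᵀ (ek k)).ofLp a *
        (act (Aᵀ ^ i)ᵀ (act (Sj A S i)ᵀ (ek k))).ofLp b : ℝ) : ℂ) *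
        (axd A ψ p q a * gyd A ψ p q b) := by
    intro k
    rw [Finset.sum_mul_sum]
    refine Finset.sum_congr rfl fun a _ => Finset.sum_congr rfl fun b _ => ?_
    push_cast
    ring
  rw [Finset.sum_congr rfl fun k _ => hL k, Finset.sum_comm, Finset.mul_sum]
  refine Finset.sum_congr rfl fun a _ => ?_
  rw [Finset.sum_comm, Finset.mul_sum]
  refine Finset.sum_congr rfl fun b _ => ?_
  rw [← Finset.sum_mul, ← Complex.ofReal_sum, hmat a b]
  push_cast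
  ring

end Pool.Agent.Helper54.FX
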