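import Pool.Agent.Helper71.FX.St

/-!
# Project FX, module LD
-/

open MeasureTheory Filter Topology
open scoped FourierTransform RealInnerProductSpace Matrix ComplexConjugate ENNReal

noncomputable section

namespace Pool.Agent.Helper54.FX

open Wav Pool.Agent.Helper71.FX

theorem ld_cs {ι : Type*} {f g : ι → ℝ} (hf : ∀ i, 0 ≤ f i) (hg : ∀ i, 0 ≤ g i)
    (hfs : Summable fun i => f i ^ 2) (hgs : Summable fun i => g i ^ 2) {F G : ℝ}
    (hF : ∑' i, f i ^ 2 ≤ F) (hG : ∑' i, g i ^ 2 ≤ G) :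
    (Summable fun i => f i * g i) ∧ ∑' i, f i * g i ≤ √F * √G := by
  have h := Real.summable_and_inner_le_Lp_mul_Lq_tsum_of_nonneg Real.HolderConjugate.two_two hf hg
    (by simpa [Real.rpow_two] using hfs) (by simpa [Real.rpow_two] using hgs)
  refine ⟨h.1, h.2.trans ?_⟩
  simp only [Real.rpow_two]
  rw [← Real.sqrt_eq_rpow, ← Real.sqrt_eq_rpow]
  exact mul_le_mul (Real.sqrt_le_sqrt hF) (Real.sqrt_le_sqrt hG) (Real.sqrt_nonneg _)
    (Real.sqrt_nonneg _)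

theorem pLD (hLA : StLA) (hLB : StLB) (hLC : StLC) : StLD := by
  intro n L N A S ψ hG
  obtain ⟨K₁, hK₁, h1⟩ := hLB n L N A ψ hG
  obtain ⟨K₂, r, hK₂, hr0, hr1, h2⟩ := hLC n L N A ψ hG
  refine ⟨(∑ a, ∑ b, |S a b|) * (√K₁ * √K₂), √r, by positivity, Real.sqrt_nonneg _, ?_, ?_⟩
  · rw [Real.sqrt_lt' one_pos]; simpa using hr1
  intro p j
  set m : ℕ := (j - p.2.1).natAbs with hm
  have hD : 0 ≤ |A.det| ^ (-p.2.1) := zpow_nonneg (abs_nonneg _) _
  have hinj : Function.Injective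
      (fun mk : Fin L × (Fin n → ℤ) => ((mk.1, j, mk.2) : Ix n L)) := by
    rintro ⟨a, b⟩ ⟨c, d⟩ h
    simp only [Prod.mk.injEq, true_and] at h
    exact Prod.ext h.1 h.2
  have hax : ∀ a : Fin n, (Summable fun mk : Fin L × (Fin n → ℤ) =>
      ‖axd A ψ p (mk.1, j, mk.2) a‖ ^ 2) ∧
      ∑' mk : Fin L × (Fin n → ℤ), ‖axd A ψ p (mk.1, j, mk.2) a‖ ^ 2 ≤ K₁ := by
    intro a
    obtain ⟨hs, hle⟩ := h1 p a
    refine ⟨hs.comp_injective hinj, le_trans ?_ hle⟩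
    exact tsum_comp_le_tsum_of_inj hs (fun q => by positivity) hinj
  have hsq : √(K₂ * r ^ m) ≤ √K₂ * (√r) ^ m := by
    refine Real.sqrt_le_iff.2 ⟨by positivity, ?_⟩
    rw [mul_pow, Real.sq_sqrt hK₂, ← pow_mul, mul_comm m 2, pow_mul, Real.sq_sqrt hr0]
  have hab : ∀ a b : Fin n, (Summable fun mk : Fin L × (Fin n → ℤ) =>
      ‖axd A ψ p (mk.1, j, mk.2) a‖ * ‖gyd A ψ p (mk.1, j, mk.2) b‖) ∧
      ∑' mk : Fin L × (Fin n → ℤ),
        ‖axd A ψ p (mk.1, j, mk.2) a‖ * ‖gyd A ψ p (mk.1, j, mk.2) b‖ ≤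
        √K₁ * √K₂ * (√r) ^ m := by
    intro a b
    obtain ⟨hs, hle⟩ := h2 p j b
    obtain ⟨h3, h4⟩ := ld_cs (fun mk => norm_nonneg _) (fun mk => norm_nonneg _) (hax a).1 hs
      (hax a).2 hle
    refine ⟨h3, h4.trans ?_⟩
    rw [mul_assoc]
    exact mul_le_mul_of_nonneg_left hsq (Real.sqrt_nonneg _)
  have hbound : ∀ mk : Fin L × (Fin n → ℤ), ‖tt A S ψ p (mk.1, j, mk.2)‖ ≤
      |A.det| ^ (-p.2.1) * ∑ a, ∑ b, |S a b| *
        (‖axd A ψ p (mk.1, j, mk.2) a‖ * ‖gyd A ψ p (mk.1, j, mk.2) b‖) := by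
    intro mk
    rw [hLA n L N A S ψ hG p (mk.1, j, mk.2), norm_mul, Complex.norm_real, Real.norm_eq_abs,
      abs_of_nonneg hD]
    refine mul_le_mul_of_nonneg_left ?_ hD
    refine (norm_sum_le _ _).trans (Finset.sum_le_sum fun a _ => ?_)
    refine (norm_sum_le _ _).trans (Finset.sum_le_sum fun b _ => ?_)
    rw [norm_mul, norm_mul, Complex.norm_real, Real.norm_eq_abs, mul_assoc]
  have hsum : Summable fun mk : Fin L × (Fin n → ℤ) => |A.det| ^ (-p.2.1) * ∑ a, ∑ b, |S a b| *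
        (‖axd A ψ p (mk.1, j, mk.2) a‖ * ‖gyd A ψ p (mk.1, j, mk.2) b‖) := by
    refine Summable.mul_left _ (summable_sum fun a _ => summable_sum fun b _ => ?_)
    exact (hab a b).1.mul_left _
  have hsumt := Summable.of_nonneg_of_le (fun mk => norm_nonneg _) hbound hsum
  refine ⟨hsumt, (hsumt.tsum_le_tsum hbound hsum).trans ?_⟩
  rw [tsum_mul_left, Summable.tsum_finsetSum
    (fun a _ => summable_sum fun b _ => (hab a b).1.mul_left _)]
  have : ∑ a, ∑' mk : Fin L × (Fin n → ℤ), ∑ b, |S a b| *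
        (‖axd A ψ p (mk.1, j, mk.2) a‖ * ‖gyd A ψ p (mk.1, j, mk.2) b‖) ≤
      (∑ a, ∑ b, |S a b|) * (√K₁ * √K₂ * (√r) ^ m) := by
    rw [Finset.sum_mul]
    refine Finset.sum_le_sum fun a _ => ?_
    rw [Summable.tsum_finsetSum (fun b _ => (hab a b).1.mul_left _), Finset.sum_mul]
    refine Finset.sum_le_sum fun b _ => ?_
    rw [tsum_mul_left]
    exact mul_le_mul_of_nonneg_left (hab a b).2 (abs_nonneg _)
  calc _ ≤ |A.det| ^ (-p.2.1) * ((∑ a, ∑ b, |S a b|) * (√K₁ * √K₂ * (√r) ^ m)) :=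
        mul_le_mul_of_nonneg_left this hD
    _ = _ := by ring

end Pool.Agent.Helper54.FX
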