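import Pool.Agent.Helper71.FX.St

/-!
# Project FX, module MN
-/

open MeasureTheory Filter Topology
open scoped FourierTransform RealInnerProductSpace Matrix ComplexConjugate ENNReal

noncomputable section

namespace Pool.Agent.Helper54.FX

open Wav Pool.Agent.Helper71.FX

theorem mn_pos (n L : ℕ) (N : ℝ) (A : Matrix (Fin n) (Fin n) ℝ) (ψ : Fin L → E n → ℂ)
    (hG : Good N A ψ) : 0 < L := by
  rcases Nat.eq_zero_or_pos L with h | h
  · exfalso
    subst h
    obtain ⟨b, -⟩ := hG.on
    have hem : IsEmpty (Fin 0 × ℤ × (Fin n → ℤ)) := ⟨fun q => Fin.elim0 q.1⟩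
    have hzero : ∀ f : Lp ℂ 2 (volume : Measure (E n)), f = 0 := by
      intro f
      have h1 := b.hasSum_repr f
      exact h1.unique (hasSum_empty)
    have hb : volume (Metric.ball (0 : E n) 1) ≠ ⊤ := measure_ball_lt_top.ne
    have h2 := hzero (indicatorConstLp 2 Metric.isOpen_ball.measurableSet hb (1 : ℂ))
    have h3 := congrArg norm h2
    rw [norm_indicatorConstLp (by norm_num) (by norm_num), norm_zero, norm_one, one_mul] at h3
    have h4 : 0 < (volume (Metric.ball (0 : E n) 1)).toReal :=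
      ENNReal.toReal_pos (Metric.measure_ball_pos volume (0 : E n) one_pos).ne' hb
    have h5 : 0 < (volume (Metric.ball (0 : E n) 1)).toReal ^ (1 / (2 : ENNReal).toReal) :=
      Real.rpow_pos_of_pos h4 _
    rw [Measure.real] at h3
    linarith
  · exact h

theorem pMN (hSY : StSY) (hSU : StSU) (hLD : StLD) (hSB : StSB) (hCT : StCT) (hAB : StAB) :
    StMN := by
  intro n L N A S ψ hG hC
  have hdet : A.det ≠ 0 := expansive_det hG.exp
  have hD : 0 < |A.det| := abs_pos.2 hdet
  obtain ⟨V, hV, hct⟩ := hCT n A hdet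
  obtain ⟨K, r, hK, hr0, hr1, hld⟩ := hLD n L N A S ψ hG
  have key := hAB n L (Fin n → ℤ) (fun i k => act (A ^ (-i)) (ivec k)) |A.det| V
    (S.trace / (4 * Real.pi)) K r (fun p q => (tt A S ψ p q).im) (mn_pos n L N A ψ hG) hD hV hK
    hr0 hr1 (fun i R => (hct i).1 R) (fun i => (hct i).2) (fun p q => hSY n L N A S ψ hG hC p q)
    (fun p => by
      have h := hSU n L N A S ψ hG p
      have e : |A.det| ^ (-p.2.1) * S.trace / (4 * Real.pi) =
          S.trace / (4 * Real.pi) * |A.det| ^ (-p.2.1) := by ring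
      rwa [e] at h)
    (fun p j => by
      obtain ⟨h1, h2⟩ := hld p j
      have h3 : Summable fun mk : Fin L × (Fin n → ℤ) => |(tt A S ψ p (mk.1, j, mk.2)).im| :=
        Summable.of_nonneg_of_le (fun _ => abs_nonneg _) (fun _ => Complex.abs_im_le_norm _) h1
      exact ⟨h3, (h3.tsum_le_tsum (fun _ => Complex.abs_im_le_norm _) h1).trans h2⟩)
    (fun i j ε hε => by
      obtain ⟨ρ, hρ, h⟩ := hSB n L N A S ψ hG i j ε hε
      refine ⟨ρ, hρ, fun l k => le_trans ?_ (h l k)⟩
      obtain ⟨h1, -⟩ := hld (l, i, k) j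
      have h2 : Summable fun mk : Fin L × (Fin n → ℤ) =>
          (if ρ < ‖ctr A ((mk.1, j, mk.2) : Ix n L) - ctr A ((l, i, k) : Ix n L)‖ then
            ‖tt A S ψ (l, i, k) (mk.1, j, mk.2)‖ else 0) := by
        refine Summable.of_nonneg_of_le (fun mk => ?_) (fun mk => ?_) h1
        · split_ifs
          · exact norm_nonneg _
          · exact le_rfl
        · split_ifs
          · exact le_rfl
          · exact norm_nonneg _
      have h3 : ∀ mk : Fin L × (Fin n → ℤ),
          (if ρ < ‖act (A ^ (-j)) (ivec mk.2) - act (A ^ (-i)) (ivec k)‖ then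
            |(tt A S ψ (l, i, k) (mk.1, j, mk.2)).im| else 0) ≤
          (if ρ < ‖ctr A ((mk.1, j, mk.2) : Ix n L) - ctr A ((l, i, k) : Ix n L)‖ then
            ‖tt A S ψ (l, i, k) (mk.1, j, mk.2)‖ else 0) := by
        intro mk
        by_cases hc : ρ < ‖act (A ^ (-j)) (ivec mk.2) - act (A ^ (-i)) (ivec k)‖
        · have hc' : ρ < ‖ctr A ((mk.1, j, mk.2) : Ix n L) - ctr A ((l, i, k) : Ix n L)‖ := hc
          rw [if_pos hc, if_pos hc']
          exact Complex.abs_im_le_norm _
        · have hc' : ¬ ρ < ‖ctr A ((mk.1, j, mk.2) : Ix n L) - ctr A ((l, i, k) : Ix n L)‖ := hc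
          rw [if_neg hc, if_neg hc']
      refine (Summable.of_nonneg_of_le (fun mk => ?_) h3 h2).tsum_le_tsum h3 h2
      split_ifs
      · exact abs_nonneg _
      · exact le_rfl)
  have h4 : (4 * Real.pi) ≠ 0 := by positivity
  rw [div_eq_zero_iff] at key
  exact key.resolve_right h4

end Pool.Agent.Helper54.FX
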