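import Pool.Agent.Helper71.FX.St

/-!
# Project FX, module SB
-/

open MeasureTheory Filter Topology
open scoped FourierTransform RealInnerProductSpace Matrix ComplexConjugate ENNReal

noncomputable section

namespace Pool.Agent.Helper54.FX

open Wav Pool.Agent.Helper71.FX

theorem sb_cs {ι : Type*} {f g : ι → ℝ} (hf : ∀ i, 0 ≤ f i) (hg : ∀ i, 0 ≤ g i)
    (hfs : Summable fun i => f i ^ 2) (hgs : Summable fun i => g i ^ 2) {F G : ℝ}
    (hF : ∑' i, f i ^ 2 ≤ F) (hG : ∑' i, g i ^ 2 ≤ G) :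
    (Summable fun i => f i * g i) ∧ ∑' i, f i * g i ≤ √F * √G := by
  have h := Real.summable_and_inner_le_Lp_mul_Lq_tsum_of_nonneg Real.HolderConjugate.two_two hf hg
    (by simpa [Real.rpow_two] using hfs) (by simpa [Real.rpow_two] using hgs)
  refine ⟨h.1, h.2.trans ?_⟩
  simp only [Real.rpow_two]
  rw [← Real.sqrt_eq_rpow, ← Real.sqrt_eq_rpow]
  exact mul_le_mul (Real.sqrt_le_sqrt hF) (Real.sqrt_le_sqrt hG) (Real.sqrt_nonneg _)
    (Real.sqrt_nonneg _)

/-- Bessel for an orthonormal family given by functions. -/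
theorem sb_bessel {n : ℕ} {ι : Type*} {b : ι → Lp ℂ 2 (volume : Measure (E n))}
    (hb : Orthonormal ℂ b) {F : ι → E n → ℂ} (hF : ∀ q, (b q : E n → ℂ) =ᵐ[volume] F q)
    {g : E n → ℂ} (hg : MemLp g 2 (volume : Measure (E n))) :
    Summable (fun q => ‖∫ x, conj (F q x) * g x‖ ^ 2) ∧
      ∑' q, ‖∫ x, conj (F q x) * g x‖ ^ 2 ≤ ‖hg.toLp g‖ ^ 2 := by
  have e : ∀ q, ‖∫ x, conj (F q x) * g x‖ ^ 2 = ‖inner ℂ (b q) (hg.toLp g)‖ ^ 2 := by
    intro q
    congr 2
    rw [L2.inner_def]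
    refine integral_congr_ae ?_
    filter_upwards [hF q, hg.coeFn_toLp] with x h1 h2
    rw [h1, h2]
    simp [mul_comm]
  simp only [e]
  exact ⟨hb.inner_products_summable _, hb.tsum_inner_products_le _⟩

theorem sb_norm_int {n : ℕ} (f g : E n → ℂ) :
    ‖∫ x, conj (g x) * f x‖ = ‖∫ x, conj (f x) * g x‖ := by
  have : ∫ x, conj (g x) * f x = conj (∫ x, conj (f x) * g x) := by
    rw [← integral_conj]
    refine integral_congr_ae (Eventually.of_forall fun x => ?_)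
    simp [mul_comm]
  rw [this, RCLike.norm_conj]

/-- the norm of `toLp` through the integral -/
theorem sb_norm_toLp {n : ℕ} {g : E n → ℂ} (hg : MemLp g 2 (volume : Measure (E n))) :
    ‖hg.toLp g‖ ^ 2 = ∫ x, ‖g x‖ ^ 2 := by
  have h := L2.inner_def (𝕜 := ℂ) (hg.toLp g) (hg.toLp g)
  have h1 : (inner ℂ (hg.toLp g) (hg.toLp g) : ℂ) = ((‖hg.toLp g‖ ^ 2 : ℝ) : ℂ) := by
    rw [inner_self_eq_norm_sq_to_K]; push_cast; rfl
  have h2 : ∫ x, inner ℂ ((hg.toLp g : E n → ℂ) x) ((hg.toLp g : E n → ℂ) x) =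
      ((∫ x, ‖g x‖ ^ 2 : ℝ) : ℂ) := by
    rw [← integral_complex_ofReal]
    refine integral_congr_ae ?_
    filter_upwards [hg.coeFn_toLp] with x hx
    rw [hx, inner_self_eq_norm_sq_to_K]
    push_cast
    rfl
  rw [h1, h2] at h
  exact_mod_cast h

theorem sb_aff_shift {n L : ℕ} {A : Matrix (Fin n) (Fin n) ℝ} (hA : A.det ≠ 0)
    (ψ : Fin L → E n → ℂ) (l : Fin L) (i : ℤ) (k : Fin n → ℤ) (x : E n) :
    aff A ψ (l, i, k) x = aff A ψ (l, i, 0) (x - act (A ^ (-i)) (ivec k)) := by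
  have hu : IsUnit A.det := isUnit_iff_ne_zero.2 hA
  have h0 : (ivec (0 : Fin n → ℤ) : E n) = 0 := by
    unfold ivec
    ext j
    simp
  unfold aff affine
  simp only []
  rw [act_sub, ← act_mul, ← Matrix.zpow_add hu, add_neg_cancel, zpow_zero, act_one, h0, sub_zero]

theorem pSB (hBS : StBS) (hLX : StLX) (hLF : StLF) (hSA : StSA) : StSB := by
  intro n L N A S ψ hG i j ε hε
  have hA : A.det ≠ 0 := expansive_det hG.exp
  have hu : IsUnit A.det := isUnit_iff_ne_zero.2 hA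
  obtain ⟨b, hb1, hb2⟩ := hBS n L N A ψ hG
  obtain ⟨hlf1, hlf2⟩ := hLF n L N A ψ hG
  set w : Fin n → E n := fun a => act (Sj A S i)ᵀ (ek a) with hw
  have hdetj : (A ^ (-j)).det ≠ 0 := (hu.det_zpow (-j)).ne_zero
  -- the frequency side
  have hfb : Orthonormal ℂ (fun q => (𝓕 (b q) : Lp ℂ 2 (volume : Measure (E n)))) :=
    b.orthonormal.comp_linearIsometryEquiv (Lp.fourierTransformₗᵢ (E n) ℂ)
  have hbj : ∀ (l : Fin L) (k : Fin n → ℤ) (a : Fin n),
      Summable (fun q : Ix n L => ‖gy A ψ (l, i, k) q (w a)‖ ^ 2) ∧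
      ∑' q : Ix n L, ‖gy A ψ (l, i, k) q (w a)‖ ^ 2 ≤
        ∫ ξ, ‖((⟪w a, ξ⟫ : ℝ) : ℂ) * fa A ψ (l, i, k) ξ‖ ^ 2 := by
    intro l k a
    have h := sb_bessel hfb hb2 (hlf1 (l, i, k) (w a))
    rw [sb_norm_toLp] at h
    exact h
  have hfaeq : ∀ (l : Fin L) (k : Fin n → ℤ) (ξ : E n),
      ‖fa A ψ (l, i, k) ξ‖ = ‖fa A ψ (l, i, 0) ξ‖ := by
    intro l k ξ
    unfold fa faff
    have hee : ∀ x : ℝ, ‖ee x‖ = 1 := by
      intro x
      unfold ee
      have : (2 * Real.pi * Complex.I * x : ℂ) = ((2 * Real.pi * x : ℝ) : ℂ) * Complex.I := by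
        push_cast; ring
      rw [this, Complex.norm_exp_ofReal_mul_I]
    simp only [norm_mul, hee, mul_one]
  set Gc : Fin L → Fin n → ℝ := fun l a => ∫ ξ, ‖((⟪w a, ξ⟫ : ℝ) : ℂ) * fa A ψ (l, i, 0) ξ‖ ^ 2
    with hGc
  have hGeq : ∀ (l : Fin L) (k : Fin n → ℤ) (a : Fin n),
      ∫ ξ, ‖((⟪w a, ξ⟫ : ℝ) : ℂ) * fa A ψ (l, i, k) ξ‖ ^ 2 = Gc l a := by
    intro l k a
    simp only [hGc, norm_mul, hfaeq l k]
  have hGc0 : ∀ l a, 0 ≤ Gc l a := fun l a => integral_nonneg fun ξ => by positivity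
  -- a small number
  set Tot : ℝ := 1 + ∑ l : Fin L, ∑ a : Fin n, ∑ _m : Fin L, √(Gc l a) with hTot
  have hTot0 : 0 < Tot := by
    have : 0 ≤ ∑ l : Fin L, ∑ a : Fin n, ∑ _m : Fin L, √(Gc l a) := by positivity
    linarith
  set ε' : ℝ := (ε / Tot) ^ 2 with hε'
  have hε'0 : 0 < ε' := by positivity
  have hsq : √ε' = ε / Tot := Real.sqrt_sq (by positivity)
  -- the position side
  have hpos : ∀ (l m : Fin L) (a : Fin n), ∃ ρ : ℝ, 0 < ρ ∧ ∀ k : Fin n → ℤ,
      ∀ ρ' : ℝ, ρ ≤ ρ' → ∑' k' : Fin n → ℤ, (if ρ' < ‖act (A ^ (-j)) (ivec k') -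
        act (A ^ (-i)) (ivec k)‖ then ‖ax A ψ (l, i, k) (m, j, k') (ek a)‖ ^ 2 else 0) ≤ ε' := by
    intro l m a
    have hf : MemLp (fun x => ((⟪ek a, x⟫ : ℝ) : ℂ) * aff A ψ (l, i, 0) x) 2
        (volume : Measure (E n)) := by
      have := hLX n L N A ψ hG (l, i, 0) (ek a) 0
      simpa using this
    have hh : MemLp (aff A ψ (m, j, 0)) 2 (volume : Measure (E n)) :=
      affine_memLp hA (hG.loc m).memLp _ _
    have hinj : Function.Injective (fun k : Fin n → ℤ => ((m, j, k) : Ix n L)) := by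
      intro k k' h
      simpa using h
    have hbes : ∀ g : E n → ℂ, MemLp g 2 (volume : Measure (E n)) →
        Summable (fun k : Fin n → ℤ =>
          ‖∫ x, conj (g x) * aff A ψ (m, j, 0) (x - act (A ^ (-j)) (ivec k))‖ ^ 2) ∧
        ∑' k : Fin n → ℤ, ‖∫ x, conj (g x) * aff A ψ (m, j, 0) (x - act (A ^ (-j)) (ivec k))‖ ^ 2
          ≤ ∫ x, ‖g x‖ ^ 2 := by
      intro g hg
      have h := sb_bessel (b.orthonormal.comp _ hinj)
        (F := fun k => aff A ψ (m, j, k)) (fun k => hb1 (m, j, k)) hg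
      rw [sb_norm_toLp] at h
      have e : ∀ k : Fin n → ℤ,
          ‖∫ x, conj (g x) * aff A ψ (m, j, 0) (x - act (A ^ (-j)) (ivec k))‖ ^ 2 =
          ‖∫ x, conj (aff A ψ (m, j, k) x) * g x‖ ^ 2 := by
        intro k
        rw [sb_norm_int g]
        simp only [sb_aff_shift hA ψ m j k]
      simp only [e]
      exact h
    obtain ⟨ρ, hρ, hρs⟩ := hSA n (A ^ (-j)) _ _ hdetj hf hh hbes ε' hε'0
    refine ⟨ρ, hρ, fun k ρ' hρ' => le_trans ?_ (hρs (act (A ^ (-i)) (ivec k)))⟩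
    have hax : ∀ k' : Fin n → ℤ, ax A ψ (l, i, k) (m, j, k') (ek a) =
        ∫ x, conj (((⟪ek a, x - act (A ^ (-i)) (ivec k)⟫ : ℝ) : ℂ) *
          aff A ψ (l, i, 0) (x - act (A ^ (-i)) (ivec k))) *
          aff A ψ (m, j, 0) (x - act (A ^ (-j)) (ivec k')) := by
      intro k'
      unfold ax ctr
      simp only [sb_aff_shift hA ψ m j k', sb_aff_shift hA ψ l i k]
    have hgL : MemLp (fun x => ((⟪ek a, x - act (A ^ (-i)) (ivec k)⟫ : ℝ) : ℂ) *
          aff A ψ (l, i, 0) (x - act (A ^ (-i)) (ivec k))) 2 (volume : Measure (E n)) :=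
      hf.comp_measurePreserving (measurePreserving_sub_right volume (act (A ^ (-i)) (ivec k)))
    have hs := (hbes _ hgL).1
    simp only [hax]
    have hsum1 : Summable (fun k' : Fin n → ℤ => (if ρ < ‖act (A ^ (-j)) (ivec k') -
        act (A ^ (-i)) (ivec k)‖ then ‖∫ x, conj (((⟪ek a, x - act (A ^ (-i)) (ivec k)⟫ : ℝ) : ℂ) *
          aff A ψ (l, i, 0) (x - act (A ^ (-i)) (ivec k))) *
          aff A ψ (m, j, 0) (x - act (A ^ (-j)) (ivec k'))‖ ^ 2 else 0)) := by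
      refine Summable.of_nonneg_of_le (fun k' => ?_) (fun k' => ?_) hs
      · split_ifs <;> positivity
      · split_ifs
        · exact le_rfl
        · positivity
    have hle : ∀ k' : Fin n → ℤ, (if ρ' < ‖act (A ^ (-j)) (ivec k') -
        act (A ^ (-i)) (ivec k)‖ then ‖∫ x, conj (((⟪ek a, x - act (A ^ (-i)) (ivec k)⟫ : ℝ) : ℂ) *
          aff A ψ (l, i, 0) (x - act (A ^ (-i)) (ivec k))) *
          aff A ψ (m, j, 0) (x - act (A ^ (-j)) (ivec k'))‖ ^ 2 else 0) ≤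
        (if ρ < ‖act (A ^ (-j)) (ivec k') -
        act (A ^ (-i)) (ivec k)‖ then ‖∫ x, conj (((⟪ek a, x - act (A ^ (-i)) (ivec k)⟫ : ℝ) : ℂ) *
          aff A ψ (l, i, 0) (x - act (A ^ (-i)) (ivec k))) *
          aff A ψ (m, j, 0) (x - act (A ^ (-j)) (ivec k'))‖ ^ 2 else 0) := by
      intro k'
      by_cases h1 : ρ' < ‖act (A ^ (-j)) (ivec k') - act (A ^ (-i)) (ivec k)‖
      · rw [if_pos h1, if_pos (lt_of_le_of_lt hρ' h1)]
      · rw [if_neg h1]
        split_ifs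
        · positivity
        · exact le_rfl
    refine (Summable.of_nonneg_of_le (fun k' => ?_) hle hsum1).tsum_le_tsum hle hsum1
    split_ifs <;> positivity
  choose ρ hρ0 hρs using hpos
  set R : ℝ := 1 + ∑ l, ∑ m, ∑ a, ρ l m a with hR
  have hRle : ∀ l m a, ρ l m a ≤ R := by
    intro l m a
    have h1 : ρ l m a ≤ ∑ a', ρ l m a' :=
      Finset.single_le_sum (f := fun a' => ρ l m a') (fun a' _ => (hρ0 l m a').le)
        (Finset.mem_univ a)
    have h2 : ∑ a', ρ l m a' ≤ ∑ m', ∑ a', ρ l m' a' :=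
      Finset.single_le_sum (f := fun m' => ∑ a', ρ l m' a')
        (fun m' _ => Finset.sum_nonneg fun a' _ => (hρ0 l m' a').le) (Finset.mem_univ m)
    have h3 : ∑ m', ∑ a', ρ l m' a' ≤ ∑ l', ∑ m', ∑ a', ρ l' m' a' :=
      Finset.single_le_sum (f := fun l' => ∑ m', ∑ a', ρ l' m' a')
        (fun l' _ => Finset.sum_nonneg fun m' _ => Finset.sum_nonneg fun a' _ => (hρ0 l' m' a').le)
        (Finset.mem_univ l)
    linarith
  have hR0 : 0 < R := by
    have : 0 ≤ ∑ l, ∑ m, ∑ a, ρ l m a :=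
      Finset.sum_nonneg fun l' _ => Finset.sum_nonneg fun m' _ =>
        Finset.sum_nonneg fun a' _ => (hρ0 l' m' a').le
    linarith
  refine ⟨R, hR0, ?_⟩
  intro l k
  -- one pair (m, a)
  have hone : ∀ (m : Fin L) (a : Fin n),
      (Summable fun k' : Fin n → ℤ => (if R < ‖act (A ^ (-j)) (ivec k') -
        act (A ^ (-i)) (ivec k)‖ then ‖ax A ψ (l, i, k) (m, j, k') (ek a)‖ else 0) *
          ‖gy A ψ (l, i, k) (m, j, k') (w a)‖) ∧
      ∑' k' : Fin n → ℤ, (if R < ‖act (A ^ (-j)) (ivec k') -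
        act (A ^ (-i)) (ivec k)‖ then ‖ax A ψ (l, i, k) (m, j, k') (ek a)‖ else 0) *
          ‖gy A ψ (l, i, k) (m, j, k') (w a)‖ ≤ √ε' * √(Gc l a) := by
    intro m a
    have hinj : Function.Injective (fun k : Fin n → ℤ => ((m, j, k) : Ix n L)) := by
      intro k k' h
      simpa using h
    have e1 : ∀ k' : Fin n → ℤ, (if R < ‖act (A ^ (-j)) (ivec k') -
        act (A ^ (-i)) (ivec k)‖ then ‖ax A ψ (l, i, k) (m, j, k') (ek a)‖ else 0) ^ 2 =
        (if R < ‖act (A ^ (-j)) (ivec k') -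
        act (A ^ (-i)) (ivec k)‖ then ‖ax A ψ (l, i, k) (m, j, k') (ek a)‖ ^ 2 else 0) := by
      intro k'
      split_ifs
      · rfl
      · simp
    have hgs := hbj l k a
    have haxs : Summable (fun k' : Fin n → ℤ => ‖ax A ψ (l, i, k) (m, j, k') (ek a)‖ ^ 2) := by
      have h := sb_bessel b.orthonormal hb1
        (hLX n L N A ψ hG (l, i, k) (ek a) (ctr A ((l, i, k) : Ix n L)))
      have h2 := h.1.comp_injective hinj
      refine h2.congr fun k' => ?_
      simp only [Function.comp_apply]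
      rw [sb_norm_int]
      rfl
    refine sb_cs (fun k' => ?_) (fun k' => norm_nonneg _) ?_ (hgs.1.comp_injective hinj) ?_ ?_
    · split_ifs
      · exact norm_nonneg _
      · exact le_rfl
    · simp only [e1]
      refine Summable.of_nonneg_of_le (fun k' => ?_) (fun k' => ?_) haxs
      · split_ifs <;> positivity
      · split_ifs
        · exact le_rfl
        · positivity
    · simp only [e1]
      exact hρs l m a k R (hRle l m a)
    · refine le_trans ?_ (hgs.2.trans (le_of_eq (hGeq l k a)))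
      exact tsum_comp_le_tsum_of_inj hgs.1 (fun q => by positivity) hinj
  -- the pointwise bound
  have hpt : ∀ mk : Fin L × (Fin n → ℤ),
      (if R < ‖ctr A ((mk.1, j, mk.2) : Ix n L) - ctr A ((l, i, k) : Ix n L)‖ then
        ‖tt A S ψ (l, i, k) (mk.1, j, mk.2)‖ else 0) ≤
      ∑ a, (if R < ‖act (A ^ (-j)) (ivec mk.2) -
        act (A ^ (-i)) (ivec k)‖ then ‖ax A ψ (l, i, k) (mk.1, j, mk.2) (ek a)‖ else 0) *
          ‖gy A ψ (l, i, k) (mk.1, j, mk.2) (w a)‖ := by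
    intro mk
    by_cases hc : R < ‖act (A ^ (-j)) (ivec mk.2) - act (A ^ (-i)) (ivec k)‖
    · have hc' : R < ‖ctr A ((mk.1, j, mk.2) : Ix n L) - ctr A ((l, i, k) : Ix n L)‖ := hc
      rw [if_pos hc']
      simp only [if_pos hc]
      unfold tt
      refine (norm_sum_le _ _).trans (Finset.sum_le_sum fun a _ => ?_)
      rw [norm_mul]
    · have hc' : ¬ R < ‖ctr A ((mk.1, j, mk.2) : Ix n L) - ctr A ((l, i, k) : Ix n L)‖ := hc
      rw [if_neg hc']
      simp only [if_neg hc]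
      simp
  have hsumA : ∀ a : Fin n, Summable (fun mk : Fin L × (Fin n → ℤ) =>
      (if R < ‖act (A ^ (-j)) (ivec mk.2) -
        act (A ^ (-i)) (ivec k)‖ then ‖ax A ψ (l, i, k) (mk.1, j, mk.2) (ek a)‖ else 0) *
          ‖gy A ψ (l, i, k) (mk.1, j, mk.2) (w a)‖) := by
    intro a
    rw [summable_prod_of_nonneg]
    · exact ⟨fun m => (hone m a).1, (hasSum_fintype _).summable⟩
    · intro mk
      refine mul_nonneg ?_ (norm_nonneg _)
      split_ifs
      · exact norm_nonneg _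
      · exact le_rfl
  have hsum := summable_sum (s := Finset.univ) (fun a _ => hsumA a)
  refine ((Summable.of_nonneg_of_le (fun mk => ?_) hpt hsum).tsum_le_tsum hpt hsum).trans ?_
  · split_ifs
    · exact norm_nonneg _
    · exact le_rfl
  rw [Summable.tsum_finsetSum (fun a _ => hsumA a)]
  have hA2 : ∀ a : Fin n, ∑' mk : Fin L × (Fin n → ℤ),
      (if R < ‖act (A ^ (-j)) (ivec mk.2) -
        act (A ^ (-i)) (ivec k)‖ then ‖ax A ψ (l, i, k) (mk.1, j, mk.2) (ek a)‖ else 0) *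
          ‖gy A ψ (l, i, k) (mk.1, j, mk.2) (w a)‖ ≤ ∑ _m : Fin L, √ε' * √(Gc l a) := by
    intro a
    rw [(hsumA a).tsum_prod, tsum_fintype]
    exact Finset.sum_le_sum fun m _ => (hone m a).2
  calc ∑ a : Fin n, ∑' mk : Fin L × (Fin n → ℤ),
      (if R < ‖act (A ^ (-j)) (ivec mk.2) -
        act (A ^ (-i)) (ivec k)‖ then ‖ax A ψ (l, i, k) (mk.1, j, mk.2) (ek a)‖ else 0) *
          ‖gy A ψ (l, i, k) (mk.1, j, mk.2) (w a)‖
      ≤ ∑ a : Fin n, ∑ _m : Fin L, √ε' * √(Gc l a) := Finset.sum_le_sum fun a _ => hA2 a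
    _ = √ε' * ∑ a : Fin n, ∑ _m : Fin L, √(Gc l a) := by
        simp only [Finset.mul_sum]
    _ ≤ √ε' * Tot := by
        refine mul_le_mul_of_nonneg_left ?_ (Real.sqrt_nonneg _)
        have h1 : ∑ a : Fin n, ∑ _m : Fin L, √(Gc l a) ≤
            ∑ l : Fin L, ∑ a : Fin n, ∑ _m : Fin L, √(Gc l a) :=
          Finset.single_le_sum (f := fun l' => ∑ a : Fin n, ∑ _m : Fin L, √(Gc l' a))
            (fun l' _ => by positivity) (Finset.mem_univ l)
        linarith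
    _ = ε := by
        rw [hsq]
        field_simp

end Pool.Agent.Helper54.FX
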